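import Mathlib

/-! Discrete cocompact groups of translations of the complex plane. -/

set_option autoImplicit false
open Topology Module

namespace Pool.Agent.Merge

/-- A discrete cocompact group of translations of `ℂ` is generated by two translations which form a
real basis. -/
theorem exists_lattice_basis (Γ : Subgroup (Multiplicative ℂ)) (hd : DiscreteTopology Γ)
    (hc : ∃ K : Set ℂ, IsCompact K ∧ ∀ w : ℂ, ∃ γ : Γ, γ • w ∈ K) :
    ∃ (T : (ℝ × ℝ) ≃L[ℝ] ℂ) (g₁ g₂ : Γ),
      (∀ s t : ℝ, T (s, t) = s • Multiplicative.toAdd g₁.1 + t • Multiplicative.toAdd g₂.1) ∧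
      ∀ γ : Γ, ∃ m n : ℤ, γ = g₁ ^ m * g₂ ^ n := by
  set L : Submodule ℤ ℂ := AddSubgroup.toIntSubmodule (Subgroup.toAddSubgroup' Γ) with hL
  have hmem : ∀ x : ℂ, x ∈ L ↔ Multiplicative.ofAdd x ∈ Γ := fun x => Iff.rfl
  have hdL : DiscreteTopology L := by
    refine DiscreteTopology.of_continuous_injective (β := Γ)
      (f := fun x : L => ⟨Multiplicative.ofAdd x.1, (hmem x.1).1 x.2⟩) ?_ ?_
    · exact Continuous.subtype_mk (continuous_ofAdd.comp continuous_subtype_val) _
    · intro x y hxy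
      exact Subtype.ext (congrArg (fun z : Γ => Multiplicative.toAdd z.1) hxy)
  have hspan : Submodule.span ℝ (L : Set ℂ) = ⊤ := by
    by_contra hne
    obtain ⟨f, hf0, hf⟩ := Submodule.exists_le_ker_of_lt_top _ (lt_top_iff_ne_top.2 hne)
    obtain ⟨K, hK, hcov⟩ := hc
    have hfc : Continuous f := f.continuous_of_finiteDimensional
    obtain ⟨C, hC⟩ := (hK.image hfc).isBounded.exists_norm_le
    obtain ⟨z, hz⟩ : ∃ z, f z ≠ 0 := by
      by_contra h
      push Not at h
      exact hf0 (LinearMap.ext h)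
    obtain ⟨γ, hγ⟩ := hcov (((|C| + 1) / f z) • z)
    have h1 : f (γ • (((|C| + 1) / f z) • z)) = |C| + 1 := by
      have h2 : γ • (((|C| + 1) / f z) • z) =
          Multiplicative.toAdd γ.1 + ((|C| + 1) / f z) • z := rfl
      have h3 : f (Multiplicative.toAdd γ.1) = 0 := by
        have h4 : Multiplicative.toAdd γ.1 ∈ (L : Set ℂ) := γ.2
        exact LinearMap.mem_ker.1 (hf (Submodule.subset_span h4))
      rw [h2, map_add, h3, zero_add, map_smul, smul_eq_mul, div_mul_cancel₀ _ hz]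
    have h5 := hC _ (Set.mem_image_of_mem f hγ)
    rw [h1, Real.norm_of_nonneg (by positivity)] at h5
    have h6 := le_abs_self C
    linarith
  have hZ : IsZLattice ℝ L := ⟨hspan⟩
  have hfin : Module.Finite ℤ L := ZLattice.module_finite ℝ L
  have hfree : Module.Free ℤ L := ZLattice.module_free ℝ L
  have hrank : finrank ℤ L = 2 := by
    rw [ZLattice.rank ℝ L, Complex.finrank_real_complex]
  let b : Basis (Fin 2) ℤ L := Module.finBasisOfFinrankEq ℤ L hrank
  let b' : Basis (Fin 2) ℝ ℂ := b.ofZLatticeBasis ℝ L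
  let T : (ℝ × ℝ) ≃ₗ[ℝ] ℂ := (LinearEquiv.finTwoArrow ℝ ℝ).symm.trans b'.equivFun.symm
  refine ⟨T.toContinuousLinearEquiv, ⟨Multiplicative.ofAdd (b 0).1, (b 0).2⟩,
    ⟨Multiplicative.ofAdd (b 1).1, (b 1).2⟩, fun s t => ?_, fun γ => ?_⟩
  · have h1 : T (s, t) = ∑ i, ![s, t] i • b' i := by
      simp only [T, LinearEquiv.trans_apply, Basis.equivFun_symm_apply]
      rfl
    change T (s, t) = _
    rw [h1, Fin.sum_univ_two]
    simp only [b', Basis.ofZLatticeBasis_apply]
    rfl
  · set x : L := ⟨Multiplicative.toAdd γ.1, γ.2⟩ with hx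
    refine ⟨b.repr x 0, b.repr x 1, ?_⟩
    have h1 := b.sum_repr x
    rw [Fin.sum_univ_two] at h1
    apply Subtype.ext
    have h2 : Multiplicative.toAdd γ.1 = b.repr x 0 • (b 0).1 + b.repr x 1 • (b 1).1 := by
      have h3 := congrArg (fun y : L => y.1) h1
      exact h3.symm
    exact congrArg Multiplicative.ofAdd h2

end Pool.Agent.Merge
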