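import Pool.Agent.Lib.MP_1d980c_gt.Mg.Lat
import Pool.Agent.Lib.MP_1d980c_gt.StepDef

/-! Reduction of the affine bundles over `Γ \ ℂ` to the case of the standard lattice. -/

set_option autoImplicit false
open Topology Module
open scoped Matrix

namespace Pool.Agent.Merge

section Red

variable {n : ℕ} {Γ : Subgroup (Multiplicative ℂ)} {M : Type}
    (ρ : Γ →* Matrix (Fin n) (Fin n) ℝ) (a : Γ → ℂ → (Fin n → ℝ))
    (π : (Fin n → ℝ) × ℂ → M)

/-- The translations which preserve `π`. -/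
def trl : Set (Fin n → ℝ) := {u | ∀ v w, π (v + u, w) = π (v, w)}

lemma rho_inv (γ : Γ) (v : Fin n → ℝ) : ρ γ *ᵥ (ρ γ⁻¹ *ᵥ v) = v := by
  rw [Matrix.mulVec_mulVec, ← map_mul, mul_inv_cancel, map_one, Matrix.one_mulVec]

lemma rho_inv' (γ : Γ) (v : Fin n → ℝ) : ρ γ⁻¹ *ᵥ (ρ γ *ᵥ v) = v := by
  rw [Matrix.mulVec_mulVec, ← map_mul, inv_mul_cancel, map_one, Matrix.one_mulVec]

variable {ρ a π}

/-- The constants of the cocycle condition are translations. -/
lemma const_mem (hst : ∀ γ v w, π (ρ γ *ᵥ v + a γ w, γ • w) = π (v, w)) (γ δ : Γ)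
    (c : Fin n → ℝ) (hc : ∀ w, a (γ * δ) w = ρ γ *ᵥ a δ w + a γ (δ • w) + c) :
    c ∈ trl π := by
  intro v' w'
  set w := (γ * δ)⁻¹ • w' with hw
  set v := ρ (γ * δ)⁻¹ *ᵥ (v' - ρ γ *ᵥ a δ w - a γ (δ • w)) with hv
  have h1 : ρ γ *ᵥ (ρ δ *ᵥ v + a δ w) + a γ (δ • w) = v' := by
    rw [Matrix.mulVec_add, Matrix.mulVec_mulVec, ← map_mul, hv, rho_inv]
    abel
  have h2 : γ • δ • w = w' := by
    rw [smul_smul, hw, smul_inv_smul]
  have h3 : ρ (γ * δ) *ᵥ v + a (γ * δ) w = v' + c := by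
    rw [hc, hv, rho_inv]
    abel
  have h4 : π (v', w') = π (v, w) := by
    have h5 := hst γ (ρ δ *ᵥ v + a δ w) (δ • w)
    rw [h1, h2] at h5
    rw [h5, hst δ v w]
  have h6 := hst (γ * δ) v w
  rw [h3, mul_smul, h2] at h6
  rw [h6, h4]

/-- The translations form a group. -/
lemma trl_neg {u : Fin n → ℝ} (hu : u ∈ trl π) : -u ∈ trl π := by
  intro v w
  have h := hu (v + -u) w
  rw [neg_add_cancel_right] at h
  exact h.symm

variable {T : (ℝ × ℝ) ≃L[ℝ] ℂ} {g₁ g₂ : Γ}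

/-- The relation of the standard lattice. -/
lemma step_shift (hst : ∀ γ v w, π (ρ γ *ᵥ v + a γ w, γ • w) = π (v, w))
    (hcoc : ∀ γ δ : Γ, ∃ c : Fin n → ℝ, ∀ w, a (γ * δ) w = ρ γ *ᵥ a δ w + a γ (δ • w) + c)
    (hT : ∀ s t : ℝ, T (s, t) = s • Multiplicative.toAdd g₁.1 + t • Multiplicative.toAdd g₂.1)
    (hgen : ∀ γ : Γ, ∃ m n : ℤ, γ = g₁ ^ m * g₂ ^ n) (γ : Γ) (v : Fin n → ℝ) (w : ℂ) :
    Relation.EqvGen (TorusBundle.Step (ρ g₁) (ρ g₂) (trl π) (fun x => a g₁ (T x))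
      (fun x => a g₂ (T x))) (v, T.symm w) (ρ γ *ᵥ v + a γ w, T.symm (γ • w)) := by
  set St := TorusBundle.Step (ρ g₁) (ρ g₂) (trl π) (fun x => a g₁ (T x))
      (fun x => a g₂ (T x)) with hSt
  have hsm : ∀ (γ : Γ) (w : ℂ), γ • w = Multiplicative.toAdd γ.1 + w := fun γ w => rfl
  have htr : ∀ (u : Fin n → ℝ), u ∈ trl π → ∀ v x, Relation.EqvGen St (v, x) (v + u, x) :=
    fun u hu v x => Relation.EqvGen.rel _ _ (TorusBundle.Step.fibre u hu v x.1 x.2)
  have hP1 : ∀ v w, Relation.EqvGen St (v, T.symm w) (ρ g₁ *ᵥ v + a g₁ w, T.symm (g₁ • w)) := by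
    intro v w
    have h1 : T.symm (g₁ • w) = ((T.symm w).1 + 1, (T.symm w).2) := by
      rw [ContinuousLinearEquiv.symm_apply_eq, hT, hsm]
      have h2 := hT (T.symm w).1 (T.symm w).2
      rw [Prod.mk.eta, T.apply_symm_apply] at h2
      rw [add_smul, one_smul, add_right_comm, ← h2, add_comm]
    have h3 := TorusBundle.Step.first (A := ρ g₁) (B := ρ g₂) (Λ := trl π)
      (a := fun x => a g₁ (T x)) (b := fun x => a g₂ (T x)) v (T.symm w).1 (T.symm w).2
    simp only [Prod.mk.eta, T.apply_symm_apply] at h3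
    rw [h1]
    exact Relation.EqvGen.rel _ _ h3
  have hP2 : ∀ v w, Relation.EqvGen St (v, T.symm w) (ρ g₂ *ᵥ v + a g₂ w, T.symm (g₂ • w)) := by
    intro v w
    have h1 : T.symm (g₂ • w) = ((T.symm w).1, (T.symm w).2 + 1) := by
      rw [ContinuousLinearEquiv.symm_apply_eq, hT, hsm]
      have h2 := hT (T.symm w).1 (T.symm w).2
      rw [Prod.mk.eta, T.apply_symm_apply] at h2
      rw [add_smul, one_smul, ← add_assoc, ← h2, add_comm]
    have h3 := TorusBundle.Step.second (A := ρ g₁) (B := ρ g₂) (Λ := trl π)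
      (a := fun x => a g₁ (T x)) (b := fun x => a g₂ (T x)) v (T.symm w).1 (T.symm w).2
    simp only [Prod.mk.eta, T.apply_symm_apply] at h3
    rw [h1]
    exact Relation.EqvGen.rel _ _ h3
  let S : Subgroup Γ :=
    { carrier := {γ | ∀ v w, Relation.EqvGen St (v, T.symm w)
        (ρ γ *ᵥ v + a γ w, T.symm (γ • w))}
      one_mem' := by
        intro v w
        obtain ⟨c, hc⟩ := hcoc 1 1
        have h1 : ∀ w, a 1 w = -c := by
          intro w
          have h2 := hc w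
          rw [mul_one, map_one, Matrix.one_mulVec, one_smul] at h2
          have h3 : a 1 w + c = 0 := by
            have h4 : a 1 w = a 1 w + (a 1 w + c) := by
              rw [← add_assoc]
              exact h2
            exact (left_eq_add.1 h4)
          exact eq_neg_of_add_eq_zero_left h3
        rw [map_one, Matrix.one_mulVec, one_smul, h1]
        exact htr _ (trl_neg (const_mem hst 1 1 c hc)) _ _
      mul_mem' := by
        intro γ δ hγ hδ v w
        obtain ⟨c, hc⟩ := hcoc γ δ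
        have h1 := hδ v w
        have h2 := hγ (ρ δ *ᵥ v + a δ w) (δ • w)
        have h3 := htr c (const_mem hst γ δ c hc)
          (ρ γ *ᵥ (ρ δ *ᵥ v + a δ w) + a γ (δ • w)) (T.symm (γ • δ • w))
        have h4 := (h1.trans _ _ _ h2).trans _ _ _ h3
        rw [hc, map_mul, ← Matrix.mulVec_mulVec, mul_smul]
        rw [Matrix.mulVec_add, add_assoc (ρ γ *ᵥ ρ δ *ᵥ v), add_assoc (ρ γ *ᵥ ρ δ *ᵥ v)] at h4
        exact h4
      inv_mem' := by
        intro γ hγ v w
        obtain ⟨c, hc⟩ := hcoc γ γ⁻¹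
        obtain ⟨c', hc'⟩ := hcoc 1 1
        have h1 : ∀ w, a 1 w = -c' := by
          intro w
          have h2 := hc' w
          rw [mul_one, map_one, Matrix.one_mulVec, one_smul] at h2
          have h3 : a 1 w + c' = 0 := by
            have h4 : a 1 w = a 1 w + (a 1 w + c') := by
              rw [← add_assoc]
              exact h2
            exact (left_eq_add.1 h4)
          exact eq_neg_of_add_eq_zero_left h3
        have h2 := hγ (ρ γ⁻¹ *ᵥ v + a γ⁻¹ w) (γ⁻¹ • w)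
        have h3 : ρ γ *ᵥ (ρ γ⁻¹ *ᵥ v + a γ⁻¹ w) + a γ (γ⁻¹ • w) = v + (-c' + -c) := by
          have h4 := hc w
          rw [mul_inv_cancel, h1] at h4
          rw [Matrix.mulVec_add, rho_inv, h4]
          abel
        rw [h3, smul_inv_smul] at h2
        have h5 := htr (-c') (trl_neg (const_mem hst 1 1 c' hc')) v (T.symm w)
        have h6 := htr (-c) (trl_neg (const_mem hst γ γ⁻¹ c hc)) (v + -c') (T.symm w)
        rw [add_assoc] at h6
        exact (h5.trans _ _ _ h6).trans _ _ _ (h2.symm _ _) }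
  have hS : ∀ γ, γ ∈ S := by
    intro γ
    obtain ⟨m, k, rfl⟩ := hgen γ
    exact S.mul_mem (S.zpow_mem hP1 m) (S.zpow_mem hP2 k)
  exact hS γ v w

/-- The fibres of `π` in the coordinates of the standard lattice. -/
lemma fibres_iff {Λ : Set (Fin n → ℝ)} {R : (Fin n → ℝ) × ℂ → (Fin n → ℝ) × ℂ → Prop}
    (hR1 : ∀ q q', R q q' → (∃ u ∈ Λ, q' = (q.1 + u, q.2)) ∨
      ∃ γ : Γ, q' = (ρ γ *ᵥ q.1 + a γ q.2, γ • q.2))
    (hR2 : ∀ u ∈ Λ, ∀ v w, R (v, w) (v + u, w))
    (hR3 : ∀ (γ : Γ) v w, R (v, w) (ρ γ *ᵥ v + a γ w, γ • w))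
    (hfib : ∀ q q', π q = π q' ↔ Relation.EqvGen R q q')
    (hcoc : ∀ γ δ : Γ, ∃ c : Fin n → ℝ, ∀ w, a (γ * δ) w = ρ γ *ᵥ a δ w + a γ (δ • w) + c)
    (hT : ∀ s t : ℝ, T (s, t) = s • Multiplicative.toAdd g₁.1 + t • Multiplicative.toAdd g₂.1)
    (hgen : ∀ γ : Γ, ∃ m n : ℤ, γ = g₁ ^ m * g₂ ^ n) (p p' : (Fin n → ℝ) × (ℝ × ℝ)) :
    π (p.1, T p.2) = π (p'.1, T p'.2) ↔
      Relation.EqvGen (TorusBundle.Step (ρ g₁) (ρ g₂) (trl π) (fun x => a g₁ (T x))
        (fun x => a g₂ (T x))) p p' := by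
  have hst : ∀ γ v w, π (ρ γ *ᵥ v + a γ w, γ • w) = π (v, w) := fun γ v w =>
    ((hfib _ _).2 (Relation.EqvGen.rel _ _ (hR3 γ v w))).symm
  constructor
  · intro h
    have h1 : ∀ q q', Relation.EqvGen R q q' →
        Relation.EqvGen (TorusBundle.Step (ρ g₁) (ρ g₂) (trl π) (fun x => a g₁ (T x))
        (fun x => a g₂ (T x))) (q.1, T.symm q.2) (q'.1, T.symm q'.2) := by
      intro q q' hq
      induction hq with
      | rel q q' hs =>
        rcases hR1 q q' hs with ⟨u, hu, rfl⟩ | ⟨γ, rfl⟩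
        · refine Relation.EqvGen.rel _ _ (TorusBundle.Step.fibre u ?_ q.1 (T.symm q.2).1
            (T.symm q.2).2)
          intro v w
          exact ((hfib _ _).2 (Relation.EqvGen.rel _ _ (hR2 u hu v w))).symm
        · exact step_shift hst hcoc hT hgen γ q.1 q.2
      | refl q => exact Relation.EqvGen.refl _
      | symm q q' _ ih => exact ih.symm _ _
      | trans q q' q'' _ _ ih1 ih2 => exact ih1.trans _ _ _ ih2
    have h2 := h1 _ _ ((hfib _ _).1 h)
    simp only [T.symm_apply_apply] at h2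
    exact h2
  · intro h
    induction h with
    | rel p p' hs =>
      rcases hs with ⟨u, hu, v, s, t⟩ | ⟨v, s, t⟩ | ⟨v, s, t⟩
      · exact (hu v _).symm
      · have h1 : T (s + 1, t) = g₁ • T (s, t) := by
          change _ = Multiplicative.toAdd g₁.1 + T (s, t)
          rw [hT, hT, add_smul, one_smul]
          abel
        simp only [h1]
        exact (hst g₁ v (T (s, t))).symm
      · have h1 : T (s, t + 1) = g₂ • T (s, t) := by
          change _ = Multiplicative.toAdd g₂.1 + T (s, t)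
          rw [hT, hT, add_smul, one_smul]
          abel
        simp only [h1]
        exact (hst g₂ v (T (s, t))).symm
    | refl p => rfl
    | symm p p' _ ih => exact ih.symm
    | trans p p' p'' _ _ ih1 ih2 => exact ih1.trans ih2

end Red

end Pool.Agent.Merge
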