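import Pool.Agent.Lib.MP_1d980c_gt.Mg.Red
import Pool.Agent.Lib.MP_1d980c_gt.DetPos
import Pool.Agent.Lib.MP_1d980c_gt.Main2

/-! Affine bundles over `Γ \ ℂ`. -/

set_option autoImplicit false
open Topology Module
open scoped Matrix Manifold ContDiff

namespace Pool.Agent.Merge

section Tor

variable {n : ℕ}

/-- The change of coordinates. -/
lemma coord_local (T : (ℝ × ℝ) ≃L[ℝ] ℂ) : IsLocalDiffeomorph 𝓘(ℝ, (Fin n → ℝ) × (ℝ × ℝ))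
    (𝓘(ℝ, Fin n → ℝ).prod 𝓘(ℝ, ℂ)) ∞
    (fun p : (Fin n → ℝ) × (ℝ × ℝ) => ((p.1, T p.2) : (Fin n → ℝ) × ℂ)) := by
  let e : Diffeomorph 𝓘(ℝ, (Fin n → ℝ) × (ℝ × ℝ)) (𝓘(ℝ, Fin n → ℝ).prod 𝓘(ℝ, ℂ))
      ((Fin n → ℝ) × (ℝ × ℝ)) ((Fin n → ℝ) × ℂ) ∞ :=
    { toFun := fun p => (p.1, T p.2)
      invFun := fun q => (q.1, T.symm q.2)
      left_inv := fun p => by simp
      right_inv := fun q => by simp
      contMDiff_toFun :=
        ContMDiff.prodMk contDiff_fst.contMDiff (T.contDiff.comp contDiff_snd).contMDiff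
      contMDiff_invFun := by
        have h1 : ContMDiff (𝓘(ℝ, Fin n → ℝ).prod 𝓘(ℝ, ℂ)) 𝓘(ℝ, Fin n → ℝ) ∞
            (fun q : (Fin n → ℝ) × ℂ => q.1) := contMDiff_fst
        have h2 : ContMDiff (𝓘(ℝ, Fin n → ℝ).prod 𝓘(ℝ, ℂ)) 𝓘(ℝ, ℝ × ℝ) ∞
            (fun q : (Fin n → ℝ) × ℂ => T.symm q.2) :=
          T.symm.contDiff.contMDiff.comp contMDiff_snd
        exact h1.prodMk_space h2 }
  exact e.isLocalDiffeomorph

variable (m : ℕ) (Γ : Subgroup (Multiplicative ℂ)) (hd : DiscreteTopology Γ)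
    (hco : ∃ K : Set ℂ, IsCompact K ∧ ∀ w : ℂ, ∃ γ : Γ, γ • w ∈ K)
    (ρ : Γ →* Matrix (Fin (2 * m)) (Fin (2 * m)) ℝ)
    (a : Γ → ℂ → (Fin (2 * m) → ℝ)) (ha : ∀ γ, ContDiff ℝ ∞ (a γ))
    (hcoc : ∀ γ δ : Γ, ∃ c : Fin (2 * m) → ℝ, ∀ w, a (γ * δ) w = ρ γ *ᵥ a δ w + a γ (δ • w) + c)
    (M : Type) [TopologicalSpace M] [ChartedSpace (EuclideanSpace ℝ (Fin (2 * (m + 1)))) M]
    [IsManifold (𝓡 (2 * (m + 1))) ∞ M]
    (π : (Fin (2 * m) → ℝ) × ℂ → M)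
    (hπ : IsLocalDiffeomorph (𝓘(ℝ, Fin (2 * m) → ℝ).prod 𝓘(ℝ, ℂ)) (𝓡 (2 * (m + 1))) ∞ π)
    {Λ : Set (Fin (2 * m) → ℝ)}
    {R : (Fin (2 * m) → ℝ) × ℂ → (Fin (2 * m) → ℝ) × ℂ → Prop}
    (hR1 : ∀ q q', R q q' → (∃ u ∈ Λ, q' = (q.1 + u, q.2)) ∨
      ∃ γ : Γ, q' = (ρ γ *ᵥ q.1 + a γ q.2, γ • q.2))
    (hR2 : ∀ u ∈ Λ, ∀ v w, R (v, w) (v + u, w))
    (hR3 : ∀ (γ : Γ) v w, R (v, w) (ρ γ *ᵥ v + a γ w, γ • w))
    (hfib : ∀ q q', π q = π q' ↔ Relation.EqvGen R q q')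

include hd hco ha hcoc hπ hR1 hR2 hR3 hfib in
/-- The monodromy preserves orientation if there is an almost complex structure. -/
theorem tor_det (J : (x : M) → TangentSpace (𝓡 (2 * (m + 1))) x →
      TangentSpace (𝓡 (2 * (m + 1))) x)
    (hlin : ∀ x, IsLinearMap ℝ (J x)) (hJ : ∀ (x : M) v, J x (J x v) = -v)
    (hcont : Continuous (fun v : TangentBundle (𝓡 (2 * (m + 1))) M =>
      (⟨v.1, J v.1 v.2⟩ : TangentBundle (𝓡 (2 * (m + 1))) M))) (γ : Γ) :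
    0 < (ρ γ).det := by
  obtain ⟨T, g₁, g₂, hT, hgen⟩ := exists_lattice_basis Γ hd hco
  have hunit : ∀ γ, IsUnit (ρ γ) := by
    intro γ
    refine ⟨⟨ρ γ, ρ γ⁻¹, ?_, ?_⟩, rfl⟩
    · rw [← map_mul, mul_inv_cancel, map_one]
    · rw [← map_mul, inv_mul_cancel, map_one]
  have hloc : IsLocalDiffeomorph 𝓘(ℝ, (Fin (2 * m) → ℝ) × (ℝ × ℝ)) (𝓡 (2 * (m + 1))) ∞
      (fun p : (Fin (2 * m) → ℝ) × (ℝ × ℝ) => π (p.1, T p.2)) := by
    intro p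
    exact IsLocalDiffeomorphAt.comp (g := π)
      (f := fun p : (Fin (2 * m) → ℝ) × (ℝ × ℝ) => ((p.1, T p.2) : (Fin (2 * m) → ℝ) × ℂ))
      _ _ (coord_local T p) (hπ _)
  have h1 := TorusBundle.det_pos_of_J m (ρ g₁) (ρ g₂) (hunit _) (hunit _) (trl π)
    (fun x => a g₁ (T x)) (fun x => a g₂ (T x)) ((ha g₁).comp T.contDiff)
    ((ha g₂).comp T.contDiff) M (fun p => π (p.1, T p.2)) hloc
    (fibres_iff hR1 hR2 hR3 hfib hcoc hT hgen) J hlin hJ hcont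
  obtain ⟨k, l, rfl⟩ := hgen γ
  let S : Subgroup Γ :=
    { carrier := {γ | 0 < (ρ γ).det}
      one_mem' := by simp
      mul_mem' := by
        intro γ δ hγ hδ
        change 0 < (ρ (γ * δ)).det
        rw [map_mul, Matrix.det_mul]
        exact mul_pos hγ hδ
      inv_mem' := by
        intro γ hγ
        have h2 : (ρ γ).det * (ρ γ⁻¹).det = 1 := by
          rw [← Matrix.det_mul, ← map_mul, mul_inv_cancel, map_one, Matrix.det_one]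
        change 0 < (ρ γ⁻¹).det
        exact (mul_pos_iff_of_pos_left hγ).1 (by rw [h2]; exact one_pos) }
  exact S.mul_mem (S.zpow_mem h1.1 k) (S.zpow_mem h1.2 l)

include hd hco ha hcoc hπ hR1 hR2 hR3 hfib in
/-- The total space is complex if the monodromy preserves orientation. -/
theorem tor_complex (hm : 2 ≤ m) (hs : Function.Surjective π) (hdet : ∀ γ, 0 < (ρ γ).det) :
    ∃ (N : Type) (_ : TopologicalSpace N) (_ : ChartedSpace (EuclideanSpace ℂ (Fin (m + 1))) N),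
      IsManifold 𝓘(ℂ, EuclideanSpace ℂ (Fin (m + 1))) ∞ N ∧
      Nonempty (Diffeomorph (𝓡 (2 * (m + 1))) 𝓘(ℝ, EuclideanSpace ℂ (Fin (m + 1))) M N ∞) := by
  obtain ⟨T, g₁, g₂, hT, hgen⟩ := exists_lattice_basis Γ hd hco
  have hloc : IsLocalDiffeomorph 𝓘(ℝ, (Fin (2 * m) → ℝ) × (ℝ × ℝ)) (𝓡 (2 * (m + 1))) ∞
      (fun p : (Fin (2 * m) → ℝ) × (ℝ × ℝ) => π (p.1, T p.2)) := by
    intro p
    exact IsLocalDiffeomorphAt.comp (g := π)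
      (f := fun p : (Fin (2 * m) → ℝ) × (ℝ × ℝ) => ((p.1, T p.2) : (Fin (2 * m) → ℝ) × ℂ))
      _ _ (coord_local T p) (hπ _)
  have hcomm : g₁ * g₂ = g₂ * g₁ := Subtype.ext (mul_comm g₁.1 g₂.1)
  obtain ⟨c₁, hc₁⟩ := hcoc g₁ g₂
  obtain ⟨c₂, hc₂⟩ := hcoc g₂ g₁
  have hT1 : ∀ s t : ℝ, T (s + 1, t) = g₁ • T (s, t) := by
    intro s t
    change _ = Multiplicative.toAdd g₁.1 + T (s, t)
    rw [hT, hT, add_smul, one_smul]
    abel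
  have hT2 : ∀ s t : ℝ, T (s, t + 1) = g₂ • T (s, t) := by
    intro s t
    change _ = Multiplicative.toAdd g₂.1 + T (s, t)
    rw [hT, hT, add_smul, one_smul]
    abel
  refine TorusBundle.complex_of_det_pos m hm (ρ g₁) (ρ g₂) ?_ (hdet _) (hdet _) (trl π)
    (fun x => a g₁ (T x)) (fun x => a g₂ (T x)) ((ha g₁).comp T.contDiff)
    ((ha g₂).comp T.contDiff) (c₂ - c₁) ?_ M (fun p => π (p.1, T p.2)) hloc ?_
    (fibres_iff hR1 hR2 hR3 hfib hcoc hT hgen)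
  · rw [← map_mul, hcomm, map_mul]
  · intro s t
    simp only [hT1, hT2]
    have h1 := hc₁ (T (s, t))
    have h2 := hc₂ (T (s, t))
    rw [hcomm, h2] at h1
    have h3 : ρ g₁ *ᵥ a g₂ (T (s, t)) + a g₁ (g₂ • T (s, t)) =
        ρ g₂ *ᵥ a g₁ (T (s, t)) + a g₂ (g₁ • T (s, t)) + c₂ - c₁ := by
      rw [h1]
      abel
    rw [h3]
    abel
  · intro x
    obtain ⟨q, rfl⟩ := hs x
    exact ⟨(q.1, T.symm q.2), by simp⟩

end Tor

end Pool.Agent.Merge
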